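import Mathlib

/-! MP_b601b9: matrices between `L` and `U` with given margins; the midpoint margins are the most frequent. -/

namespace R442.MS

open Finset

variable {I J : Type*} [Fintype I] [Fintype J] [DecidableEq I] [DecidableEq J]

def row (A : I → J → ℕ) (i : I) : ℕ := ∑ j, A i j
def col (A : I → J → ℕ) (j : J) : ℕ := ∑ i, A i j

omit [Fintype I] [DecidableEq I] [DecidableEq J] in
theorem row_add (A B : I → J → ℕ) : row (A + B) = row A + row B := by
  funext i; simp [row, sum_add_distrib]

omit [Fintype J] [DecidableEq I] [DecidableEq J] in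
theorem col_add (A B : I → J → ℕ) : col (A + B) = col A + col B := by
  funext j; simp [col, sum_add_distrib]

omit [Fintype I] [Fintype J] [DecidableEq I] [DecidableEq J] in
theorem lea {A B : I → J → ℕ} (h : A ≤ B) (i : I) (j : J) : A i j ≤ B i j := h i j

/-- matrices in `[L,U]` with margins `ρ, γ` -/
def SS (L U : I → J → ℕ) (ρ : I → ℕ) (γ : J → ℕ) : Finset (I → J → ℕ) :=
  (Icc L U).filter (fun A => row A = ρ ∧ col A = γ)

def NN (L U : I → J → ℕ) (ρ : I → ℕ) (γ : J → ℕ) : ℕ := (SS L U ρ γ).card

theorem mem_SS {L U : I → J → ℕ} {ρ : I → ℕ} {γ : J → ℕ} {A : I → J → ℕ} :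
    A ∈ SS L U ρ γ ↔ (L ≤ A ∧ A ≤ U) ∧ row A = ρ ∧ col A = γ := by
  simp [SS]

def LT' (L U T : I → J → ℕ) : I → J → ℕ := fun i j => max (L i j) (T i j - U i j)
def UT' (L U T : I → J → ℕ) : I → J → ℕ := fun i j => min (U i j) (T i j - L i j)

def TTs (L U : I → J → ℕ) (r : I → ℕ) (c : J → ℕ) : Finset (I → J → ℕ) := SS (L + L) (U + U) r c

theorem prod_eq (L U : I → J → ℕ) (ρ ρ' : I → ℕ) (γ γ' : J → ℕ) :
    NN L U ρ γ * NN L U ρ' γ' = ∑ T ∈ TTs L U (ρ + ρ') (γ + γ'), NN (LT' L U T) (UT' L U T) ρ γ := by
  rw [NN, NN, ← card_product]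
  have hmaps : ∀ p ∈ (SS L U ρ γ ×ˢ SS L U ρ' γ'), p.1 + p.2 ∈ TTs L U (ρ + ρ') (γ + γ') := by
    rintro ⟨A, B⟩ hp
    rw [mem_product, mem_SS, mem_SS] at hp
    obtain ⟨⟨⟨h1, h2⟩, h3, h4⟩, ⟨⟨h5, h6⟩, h7, h8⟩⟩ := hp
    rw [TTs, mem_SS]
    refine ⟨⟨add_le_add h1 h5, add_le_add h2 h6⟩, ?_, ?_⟩
    · rw [row_add]; simp only at h3 h7; rw [h3, h7]
    · rw [col_add]; simp only at h4 h8; rw [h4, h8]
  rw [card_eq_sum_card_fiberwise hmaps]
  refine sum_congr rfl (fun T hT => ?_)
  rw [TTs, mem_SS] at hT
  obtain ⟨⟨hT1, hT2⟩, hT3, hT4⟩ := hT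
  rw [NN]
  refine card_bij (fun p _ => p.1) ?_ ?_ ?_
  · rintro ⟨A, B⟩ hp
    rw [mem_filter, mem_product, mem_SS, mem_SS] at hp
    obtain ⟨⟨⟨⟨h1, h2⟩, h3, h4⟩, ⟨⟨h5, h6⟩, h7, h8⟩⟩, h9⟩ := hp
    rw [mem_SS]
    dsimp only at *
    refine ⟨⟨?_, ?_⟩, h3, h4⟩
    · intro i j
      have a1 := lea h1 i j; have a2 := lea h2 i j; have a5 := lea h5 i j; have a6 := lea h6 i j
      have a9 := congrFun (congrFun h9 i) j
      simp only [Pi.add_apply] at a9
      show max (L i j) (T i j - U i j) ≤ A i j
      omega
    · intro i j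
      have a1 := lea h1 i j; have a2 := lea h2 i j; have a5 := lea h5 i j; have a6 := lea h6 i j
      have a9 := congrFun (congrFun h9 i) j
      simp only [Pi.add_apply] at a9
      show A i j ≤ min (U i j) (T i j - L i j)
      omega
  · rintro ⟨A, B⟩ hp ⟨A', B'⟩ hp' h
    rw [mem_filter] at hp hp'
    have e1 := hp.2
    have e2 := hp'.2
    simp only at h e1 e2
    subst h
    rw [← e2] at e1
    have := add_left_cancel e1
    rw [this]
  · intro A hA
    rw [mem_SS] at hA
    obtain ⟨⟨h1, h2⟩, h3, h4⟩ := hA
    have key : ∀ i j, L i j ≤ A i j ∧ A i j ≤ U i j ∧ L i j ≤ T i j - A i j ∧ T i j - A i j ≤ U i j ∧ A i j ≤ T i j := by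
      intro i j
      have a1 := lea h1 i j; have a2 := lea h2 i j; have a5 := lea hT1 i j; have a6 := lea hT2 i j
      simp only [LT', UT', Pi.add_apply] at a1 a2 a5 a6
      omega
    have hsum : A + (fun i j => T i j - A i j) = T := by
      funext i j
      simp only [Pi.add_apply]
      have := (key i j).2.2.2.2
      omega
    refine ⟨(A, fun i j => T i j - A i j), ?_, rfl⟩
    rw [mem_filter, mem_product, mem_SS, mem_SS]
    refine ⟨⟨⟨⟨fun i j => (key i j).1, fun i j => (key i j).2.1⟩, h3, h4⟩,
      ⟨⟨fun i j => (key i j).2.2.1, fun i j => (key i j).2.2.2.1⟩, ?_, ?_⟩⟩, hsum⟩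
    · have := congrArg row hsum
      rw [row_add, hT3, h3] at this
      exact add_left_cancel this
    · have := congrArg col hsum
      rw [col_add, hT4, h4] at this
      exact add_left_cancel this

theorem rev_eq (L U : I → J → ℕ) (hLU : L ≤ U) (ρ ρ' : I → ℕ) (γ γ' : J → ℕ)
    (h1 : row L + row U = ρ + ρ') (h2 : col L + col U = γ + γ') : NN L U ρ γ = NN L U ρ' γ' := by
  rw [NN, NN]
  have hcomp : ∀ A : I → J → ℕ, (L ≤ A ∧ A ≤ U) → A + (fun i j => L i j + U i j - A i j) = L + U := by
    intro A hA
    funext i j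
    have a1 := lea hA.1 i j; have a2 := lea hA.2 i j
    simp only [Pi.add_apply]; omega
  refine card_bij' (fun A _ => fun i j => L i j + U i j - A i j) (fun A _ => fun i j => L i j + U i j - A i j) ?_ ?_ ?_ ?_
  · intro A hA
    rw [mem_SS] at hA ⊢
    refine ⟨⟨fun i j => ?_, fun i j => ?_⟩, ?_, ?_⟩
    · have a1 := lea hA.1.1 i j; have a2 := lea hA.1.2 i j; simp only; omega
    · have a1 := lea hA.1.1 i j; have a2 := lea hA.1.2 i j; simp only; omega
    · have := congrArg row (hcomp A hA.1)
      rw [row_add, row_add, h1, hA.2.1] at this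
      exact add_left_cancel this
    · have := congrArg col (hcomp A hA.1)
      rw [col_add, col_add, h2, hA.2.2] at this
      exact add_left_cancel this
  · intro A hA
    rw [mem_SS] at hA ⊢
    refine ⟨⟨fun i j => ?_, fun i j => ?_⟩, ?_, ?_⟩
    · have a1 := lea hA.1.1 i j; have a2 := lea hA.1.2 i j; simp only; omega
    · have a1 := lea hA.1.1 i j; have a2 := lea hA.1.2 i j; simp only; omega
    · have := congrArg row (hcomp A hA.1)
      rw [row_add, row_add, h1, hA.2.1, add_comm ρ ρ'] at this
      exact add_left_cancel this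
    · have := congrArg col (hcomp A hA.1)
      rw [col_add, col_add, h2, hA.2.2, add_comm γ γ'] at this
      exact add_left_cancel this
  · intro A hA
    rw [mem_SS] at hA
    funext i j
    have a1 := lea hA.1.1 i j; have a2 := lea hA.1.2 i j; simp only; omega
  · intro A hA
    rw [mem_SS] at hA
    funext i j
    have a1 := lea hA.1.1 i j; have a2 := lea hA.1.2 i j; simp only; omega

/-! ### existence by Hall's theorem -/

theorem half_exists (S : I → J → ℕ) (a : I → ℕ) (b : J → ℕ) (h1 : ∀ i, row S i = 2 * a i) (h2 : ∀ j, col S j = 2 * b j) :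
    ∃ C : I → J → ℕ, C ≤ S ∧ row C = a ∧ col C = b := by
  classical
  let E := (Σ p : I × J, Fin (S p.1 p.2))
  let V := (Σ v : I ⊕ J, Fin (Sum.elim a b v))
  let t : E → Finset V := fun e => univ.filter (fun x : V => x.1 = Sum.inl e.1.1 ∨ x.1 = Sum.inr e.1.2)
  -- cardinalities
  have cE1 : ∀ i, (univ.filter (fun e : E => e.1.1 = i)).card = 2 * a i := by
    intro i
    rw [← h1 i, card_filter, Fintype.sum_sigma, row, Fintype.sum_prod_type]
    rw [Finset.sum_eq_single i]
    · refine sum_congr rfl (fun j _ => ?_)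
      simp
    · intro i' _ hne
      refine sum_eq_zero (fun j _ => ?_)
      simp [hne]
    · intro h; exact absurd (mem_univ _) h
  have cE2 : ∀ j, (univ.filter (fun e : E => e.1.2 = j)).card = 2 * b j := by
    intro j
    rw [← h2 j, card_filter, Fintype.sum_sigma, col, Fintype.sum_prod_type]
    refine sum_congr rfl (fun i _ => ?_)
    rw [Finset.sum_eq_single j]
    · simp
    · intro j' _ hne
      simp [hne]
    · intro h; exact absurd (mem_univ _) h
  have cV : ∀ v, (univ.filter (fun x : V => x.1 = v)).card = Sum.elim a b v := by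
    intro v
    rw [card_filter, Fintype.sum_sigma, Finset.sum_eq_single v]
    · simp
    · intro v' _ hne
      simp [hne]
    · intro h; exact absurd (mem_univ _) h
  have hall : ∀ s : Finset E, s.card ≤ (s.biUnion t).card := by
    intro s
    set Rs := s.image (fun e => e.1.1) with hRs
    set Cs := s.image (fun e => e.1.2) with hCs
    have e1 : s.biUnion t = (Rs.biUnion fun i => univ.filter (fun x : V => x.1 = Sum.inl i)) ∪
        (Cs.biUnion fun j => univ.filter (fun x : V => x.1 = Sum.inr j)) := by
      ext x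
      simp only [mem_biUnion, mem_union, mem_filter, mem_univ, true_and, t, hRs, hCs, mem_image]
      constructor
      · rintro ⟨e, he, h | h⟩
        · exact Or.inl ⟨e.1.1, ⟨e, he, rfl⟩, h⟩
        · exact Or.inr ⟨e.1.2, ⟨e, he, rfl⟩, h⟩
      · rintro (⟨i, ⟨e, he, rfl⟩, h⟩ | ⟨j, ⟨e, he, rfl⟩, h⟩)
        · exact ⟨e, he, Or.inl h⟩
        · exact ⟨e, he, Or.inr h⟩
    have e2 : (s.biUnion t).card = ∑ i ∈ Rs, a i + ∑ j ∈ Cs, b j := by
      rw [e1, card_union_of_disjoint, card_biUnion, card_biUnion]
      · congr 1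
        · exact sum_congr rfl (fun i _ => cV (Sum.inl i))
        · exact sum_congr rfl (fun j _ => cV (Sum.inr j))
      · intro j _ j' _ hne
        rw [Function.onFun, disjoint_left]
        intro x hx hx'
        rw [mem_filter] at hx hx'
        exact hne (Sum.inr_injective (hx.2.symm.trans hx'.2))
      · intro j _ j' _ hne
        rw [Function.onFun, disjoint_left]
        intro x hx hx'
        rw [mem_filter] at hx hx'
        exact hne (Sum.inl_injective (hx.2.symm.trans hx'.2))
      · rw [disjoint_left]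
        intro x hx hx'
        rw [mem_biUnion] at hx hx'
        obtain ⟨i, _, hi⟩ := hx
        obtain ⟨j, _, hj⟩ := hx'
        rw [mem_filter] at hi hj
        have := hi.2.symm.trans hj.2
        cases this
    have e3 : s.card ≤ ∑ i ∈ Rs, 2 * a i := by
      calc s.card ≤ (Rs.biUnion fun i => univ.filter (fun e : E => e.1.1 = i)).card := by
            apply card_le_card
            intro e he
            rw [mem_biUnion]
            exact ⟨e.1.1, mem_image_of_mem _ he, by simp⟩
        _ ≤ ∑ i ∈ Rs, (univ.filter (fun e : E => e.1.1 = i)).card := card_biUnion_le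
        _ = _ := sum_congr rfl (fun i _ => cE1 i)
    have e4 : s.card ≤ ∑ j ∈ Cs, 2 * b j := by
      calc s.card ≤ (Cs.biUnion fun j => univ.filter (fun e : E => e.1.2 = j)).card := by
            apply card_le_card
            intro e he
            rw [mem_biUnion]
            exact ⟨e.1.2, mem_image_of_mem _ he, by simp⟩
        _ ≤ ∑ j ∈ Cs, (univ.filter (fun e : E => e.1.2 = j)).card := card_biUnion_le
        _ = _ := sum_congr rfl (fun j _ => cE2 j)
    rw [← mul_sum] at e3 e4
    rw [e2]
    omega
  obtain ⟨f, hf, hft⟩ := (Finset.all_card_le_biUnion_card_iff_exists_injective t).1 hall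
  -- cardinality of E and V agree
  have hcard : Fintype.card E = Fintype.card V := by
    have tot1 : ∑ i, ∑ j, S i j = ∑ i, 2 * a i := sum_congr rfl (fun i _ => h1 i)
    have tot2 : ∑ i, ∑ j, S i j = ∑ j, 2 * b j := by
      rw [sum_comm]; exact sum_congr rfl (fun j _ => h2 j)
    have c1 : Fintype.card E = ∑ i, ∑ j, S i j := by
      rw [Fintype.card_sigma, Fintype.sum_prod_type]
      simp
    have c2 : Fintype.card V = ∑ i, a i + ∑ j, b j := by
      rw [Fintype.card_sigma, Fintype.sum_sum_type]
      congr 1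
      · exact sum_congr rfl (fun i _ => Fintype.card_fin (a i))
      · exact sum_congr rfl (fun i _ => Fintype.card_fin (b i))
    rw [← mul_sum] at tot1 tot2
    rw [c1, c2]
    omega
  have hbij : Function.Bijective f := (Fintype.bijective_iff_injective_and_card f).2 ⟨hf, hcard⟩
  have hft' : ∀ e, (f e).1 = Sum.inl e.1.1 ∨ (f e).1 = Sum.inr e.1.2 := by
    intro e
    have := hft e
    rw [mem_filter] at this
    exact this.2
  have cF : ∀ v, (univ.filter (fun e : E => (f e).1 = v)).card = Sum.elim a b v := by
    intro v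
    rw [← cV v]
    refine card_bij (fun e _ => f e) ?_ ?_ ?_
    · intro e he; rw [mem_filter] at he ⊢; exact ⟨mem_univ _, he.2⟩
    · intro e _ e' _ h; exact hf h
    · intro x hx
      obtain ⟨e, rfl⟩ := hbij.2 x
      rw [mem_filter] at hx
      exact ⟨e, by rw [mem_filter]; exact ⟨mem_univ _, hx.2⟩, rfl⟩
  let C : I → J → ℕ := fun i j => (univ.filter (fun e : E => e.1 = (i, j) ∧ (f e).1 = Sum.inl i)).card
  have cS : ∀ i j, (univ.filter (fun e : E => e.1 = (i, j))).card = S i j := by
    intro i j
    rw [card_filter, Fintype.sum_sigma, Finset.sum_eq_single (i, j)]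
    · simp
    · intro v' _ hne
      simp [hne]
    · intro h; exact absurd (mem_univ _) h
  refine ⟨C, ?_, ?_, ?_⟩
  · intro i j
    show C i j ≤ S i j
    rw [← cS i j]
    apply card_le_card
    intro e he
    rw [mem_filter] at he ⊢
    exact ⟨he.1, he.2.1⟩
  · funext i
    have := cF (Sum.inl i)
    rw [Sum.elim_inl] at this
    rw [← this, row]
    have e1 : (univ.filter (fun e : E => (f e).1 = Sum.inl i)) =
        univ.biUnion (fun j : J => univ.filter (fun e : E => e.1 = (i, j) ∧ (f e).1 = Sum.inl i)) := by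
      ext e
      simp only [mem_filter, mem_univ, true_and, mem_biUnion]
      constructor
      · intro h
        rcases hft' e with h' | h'
        · rw [h] at h'
          have hi : i = e.1.1 := Sum.inl_injective h'
          exact ⟨e.1.2, by rw [hi], h⟩
        · rw [h] at h'; cases h'
      · rintro ⟨j, _, h⟩; exact h
    rw [e1, card_biUnion]
    intro j _ j' _ hne
    rw [Function.onFun, disjoint_left]
    intro x hx hx'
    rw [mem_filter] at hx hx'
    have := hx.2.1.symm.trans hx'.2.1
    exact hne (congrArg Prod.snd this)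
  · funext j
    have h3 := cF (Sum.inr j)
    rw [Sum.elim_inr] at h3
    have e1 : (univ.filter (fun e : E => e.1.2 = j)) =
        (univ.biUnion (fun i : I => univ.filter (fun e : E => e.1 = (i, j) ∧ (f e).1 = Sum.inl i))) ∪
        (univ.filter (fun e : E => (f e).1 = Sum.inr j)) := by
      ext e
      simp only [mem_filter, mem_univ, true_and, mem_biUnion, mem_union]
      constructor
      · intro h
        rcases hft' e with h' | h'
        · left; exact ⟨e.1.1, by rw [← h], h'⟩
        · right; rw [h', h]
      · rintro (⟨i, h, _⟩ | h)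
        · rw [h]
        · rcases hft' e with h' | h'
          · rw [h] at h'; cases h'
          · rw [h] at h'; exact (Sum.inr_injective h').symm
    have h4 := cE2 j
    rw [e1, card_union_of_disjoint, card_biUnion, h3] at h4
    · show ∑ i, C i j = b j
      have : ∑ i, C i j + b j = 2 * b j := h4
      omega
    · intro i _ i' _ hne
      rw [Function.onFun, disjoint_left]
      intro x hx hx'
      rw [mem_filter] at hx hx'
      have := hx.2.1.symm.trans hx'.2.1
      exact hne (congrArg Prod.fst this)
    · rw [disjoint_left]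
      intro x hx hx'
      rw [mem_biUnion] at hx
      obtain ⟨i, _, hi⟩ := hx
      rw [mem_filter] at hi hx'
      have := hi.2.2.symm.trans hx'.2
      cases this

/-! ### the main inequality -/

def tot (A : I → J → ℕ) : ℕ := ∑ i, ∑ j, A i j

theorem sq_ineq {x y P Q : ℕ} (hx : 1 ≤ x) (hy : 1 ≤ y) (h1 : x * x = x + P) (h2 : y * y = y + Q) (h : P ≤ Q) : x ≤ y := by
  by_contra hc
  push Not at hc
  nlinarith

theorem mid_max (a : I → ℕ) (b : J → ℕ) (ρ : I → ℕ) (γ : J → ℕ) :
    ∀ (N : ℕ) (L U : I → J → ℕ), L ≤ U → (∑ i, ∑ j, (U i j - L i j)) = N → row L + row U = a + a → col L + col U = b + b →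
      NN L U ρ γ ≤ NN L U a b := by
  intro N
  induction N using Nat.strong_induction_on with
  | _ N ih =>
    intro L U hLU hN hr hc
    by_cases h0 : NN L U ρ γ = 0
    · omega
    obtain ⟨A, hA⟩ := Finset.card_pos.1 (Nat.pos_of_ne_zero h0)
    rw [mem_SS] at hA
    -- ρ' and γ'
    obtain ⟨ρ', hρ⟩ : ∃ ρ', ρ + ρ' = a + a := by
      refine ⟨fun i => 2 * a i - ρ i, ?_⟩
      funext i
      have h1 := congrFun hr i
      have h2 : ρ i ≤ row U i := by
        rw [← hA.2.1]
        exact sum_le_sum (fun j _ => hA.1.2 i j)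
      simp only [Pi.add_apply] at h1 ⊢
      omega
    obtain ⟨γ', hγ⟩ : ∃ γ', γ + γ' = b + b := by
      refine ⟨fun i => 2 * b i - γ i, ?_⟩
      funext i
      have h1 := congrFun hc i
      have h2 : γ i ≤ col U i := by
        rw [← hA.2.2]
        exact sum_le_sum (fun j _ => hA.1.2 j i)
      simp only [Pi.add_apply] at h1 ⊢
      omega
    have hrev : NN L U ρ γ = NN L U ρ' γ' := rev_eq L U hLU ρ ρ' γ γ' (hr.trans hρ.symm) (hc.trans hγ.symm)
    have p1 := prod_eq L U ρ ρ' γ γ'
    have p2 := prod_eq L U a a b b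
    rw [← hrev, hρ, hγ] at p1
    -- isolate T = L + U
    have hmem : L + U ∈ TTs L U (a + a) (b + b) := by
      rw [TTs, mem_SS]
      refine ⟨⟨add_le_add le_rfl hLU, add_le_add hLU le_rfl⟩, ?_, ?_⟩
      · rw [row_add]; exact hr
      · rw [col_add]; exact hc
    have hL0 : LT' L U (L + U) = L := by
      funext i j
      show max (L i j) (L i j + U i j - U i j) = L i j
      omega
    have hU0 : UT' L U (L + U) = U := by
      funext i j
      show min (U i j) (L i j + U i j - L i j) = U i j
      omega
    rw [← Finset.add_sum_erase _ _ hmem, hL0, hU0] at p1 p2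
    refine sq_ineq (Nat.pos_of_ne_zero h0) ?_ p1 p2 ?_
    · -- existence
      have hrow : ∀ i, row (fun i j => U i j - L i j) i = 2 * (a i - row L i) := by
        intro i
        have h1 := congrFun hr i
        have h2 : row (fun i j => U i j - L i j) i + row L i = row U i := by
          rw [row, row, row, ← sum_add_distrib]
          refine sum_congr rfl (fun j _ => ?_)
          have := lea hLU i j
          omega
        simp only [Pi.add_apply] at h1
        omega
      have hcol : ∀ j, col (fun i j => U i j - L i j) j = 2 * (b j - col L j) := by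
        intro j
        have h1 := congrFun hc j
        have h2 : col (fun i j => U i j - L i j) j + col L j = col U j := by
          rw [col, col, col, ← sum_add_distrib]
          refine sum_congr rfl (fun i _ => ?_)
          have := lea hLU i j
          omega
        simp only [Pi.add_apply] at h1
        omega
      obtain ⟨C, hC1, hC2, hC3⟩ := half_exists (fun i j => U i j - L i j) (fun i => a i - row L i) (fun j => b j - col L j) hrow hcol
      apply Finset.card_pos.2
      refine ⟨L + C, ?_⟩
      rw [mem_SS]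
      refine ⟨⟨?_, ?_⟩, ?_, ?_⟩
      · intro i j
        show L i j ≤ L i j + C i j
        omega
      · intro i j
        have h1 := lea hC1 i j
        have h2 := lea hLU i j
        show L i j + C i j ≤ U i j
        change C i j ≤ U i j - L i j at h1
        omega
      · rw [row_add, hC2]
        funext i
        have h1 := congrFun hr i
        have h2 : row L i ≤ row U i := sum_le_sum (fun j _ => hLU i j)
        simp only [Pi.add_apply] at h1 ⊢
        omega
      · rw [col_add, hC3]
        funext j
        have h1 := congrFun hc j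
        have h2 : col L j ≤ col U j := sum_le_sum (fun i _ => hLU i j)
        simp only [Pi.add_apply] at h1 ⊢
        omega
    · refine sum_le_sum (fun T hT => ?_)
      rw [mem_erase, TTs, mem_SS] at hT
      obtain ⟨hne, ⟨hT1, hT2⟩, hT3, hT4⟩ := hT
      have hsumT : LT' L U T + UT' L U T = T := by
        funext i j
        have a0 := lea hLU i j
        have a1 := lea hT1 i j; have a2 := lea hT2 i j
        simp only [Pi.add_apply] at a1 a2
        show max (L i j) (T i j - U i j) + min (U i j) (T i j - L i j) = T i j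
        omega
      have hleT : LT' L U T ≤ UT' L U T := by
        intro i j
        have a0 := lea hLU i j
        have a1 := lea hT1 i j; have a2 := lea hT2 i j
        simp only [Pi.add_apply] at a1 a2
        show max (L i j) (T i j - U i j) ≤ min (U i j) (T i j - L i j)
        omega
      refine ih (∑ i, ∑ j, (UT' L U T i j - LT' L U T i j)) ?_ _ _ hleT rfl ?_ ?_
      · rw [← hN]
        have hle : ∀ i j, UT' L U T i j - LT' L U T i j ≤ U i j - L i j := by
          intro i j
          have a0 := lea hLU i j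
          have a1 := lea hT1 i j; have a2 := lea hT2 i j
          simp only [Pi.add_apply] at a1 a2
          show min (U i j) (T i j - L i j) - max (L i j) (T i j - U i j) ≤ U i j - L i j
          omega
        have hex : ∃ i j, T i j ≠ L i j + U i j := by
          by_contra hcon
          push Not at hcon
          exact hne (by funext i j; exact hcon i j)
        obtain ⟨i, j, hij⟩ := hex
        refine Finset.sum_lt_sum (fun i _ => sum_le_sum (fun j _ => hle i j)) ⟨i, mem_univ _, ?_⟩
        refine Finset.sum_lt_sum (fun j _ => hle i j) ⟨j, mem_univ _, ?_⟩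
        have a0 := lea hLU i j
        have a1 := lea hT1 i j; have a2 := lea hT2 i j
        simp only [Pi.add_apply] at a1 a2
        show min (U i j) (T i j - L i j) - max (L i j) (T i j - U i j) < U i j - L i j
        omega
      · rw [← row_add, hsumT, hT3]
      · rw [← col_add, hsumT, hT4]

/-! ### magic squares -/

/-- constant function -/
def kk (X : Type*) (k : ℕ) : X → ℕ := fun _ => k

/-- number of nonnegative integer `n × n` matrices with all row and column sums equal to `k` -/
def HH (n k : ℕ) : ℕ := NN (0 : Fin n → Fin n → ℕ) (fun _ _ => k) (kk _ k) (kk _ k)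

theorem mem_HH {n k : ℕ} {A : Fin n → Fin n → ℕ} :
    A ∈ SS (0 : Fin n → Fin n → ℕ) (fun _ _ => k) (kk _ k) (kk _ k) ↔ (∀ i, ∑ j, A i j = k) ∧ (∀ j, ∑ i, A i j = k) := by
  rw [mem_SS]
  constructor
  · rintro ⟨_, h1, h2⟩
    exact ⟨fun i => congrFun h1 i, fun j => congrFun h2 j⟩
  · rintro ⟨h1, h2⟩
    refine ⟨⟨fun i j => Nat.zero_le _, fun i j => ?_⟩, funext h1, funext h2⟩
    show A i j ≤ k
    rw [← h1 i]
    exact Finset.single_le_sum (f := fun j => A i j) (fun _ _ => Nat.zero_le _) (mem_univ j)

theorem row_kk {n k : ℕ} {A : Fin n → Fin n → ℕ} (h : row A = kk _ k) (i j : Fin n) : A i j ≤ k := by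
  have h1 : ∑ j, A i j = k := congrFun h i
  rw [← h1]
  exact Finset.single_le_sum (f := fun j => A i j) (fun _ _ => Nat.zero_le _) (mem_univ j)

/-- all matrices `T` with margins `2k` -/
def TT2 (n k : ℕ) : Finset (Fin n → Fin n → ℕ) := SS 0 (fun _ _ => 2 * k) (kk _ (2 * k)) (kk _ (2 * k))

theorem HH_mul (n a b k : ℕ) (hab : a + b = 2 * k) : HH n a * HH n b = ∑ T ∈ TT2 n k, NN 0 T (kk _ a) (kk _ a) := by
  rw [HH, HH, NN, NN, ← card_product]
  have hmaps : ∀ p ∈ (SS (0 : Fin n → Fin n → ℕ) (fun _ _ => a) (kk _ a) (kk _ a) ×ˢ SS (0 : Fin n → Fin n → ℕ) (fun _ _ => b) (kk _ b) (kk _ b)),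
      p.1 + p.2 ∈ TT2 n k := by
    rintro ⟨A, B⟩ hp
    rw [mem_product, mem_HH, mem_HH] at hp
    rw [TT2, mem_HH]
    refine ⟨fun i => ?_, fun j => ?_⟩
    · simp only [Pi.add_apply, sum_add_distrib]
      rw [hp.1.1 i, hp.2.1 i, hab]
    · simp only [Pi.add_apply, sum_add_distrib]
      rw [hp.1.2 j, hp.2.2 j, hab]
  rw [card_eq_sum_card_fiberwise hmaps]
  refine sum_congr rfl (fun T hT => ?_)
  rw [TT2, mem_HH] at hT
  rw [NN]
  refine card_bij (fun p _ => p.1) ?_ ?_ ?_
  · rintro ⟨A, B⟩ hp
    rw [mem_filter, mem_product, mem_HH, mem_HH] at hp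
    obtain ⟨⟨h1, h2⟩, h3⟩ := hp
    rw [mem_SS]
    dsimp only at *
    refine ⟨⟨fun i j => Nat.zero_le _, ?_⟩, funext h1.1, funext h1.2⟩
    rw [← h3]
    intro i j
    exact Nat.le_add_right _ _
  · rintro ⟨A, B⟩ hp ⟨A', B'⟩ hp' h
    rw [mem_filter] at hp hp'
    have e1 := hp.2
    have e2 := hp'.2
    simp only at h e1 e2
    subst h
    rw [← e2] at e1
    have := add_left_cancel e1
    rw [this]
  · intro A hA
    rw [mem_SS] at hA
    obtain ⟨⟨_, h2⟩, h3, h4⟩ := hA
    have hsum : ∀ i j, A i j + (T i j - A i j) = T i j := by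
      intro i j
      have := lea h2 i j
      omega
    refine ⟨(A, fun i j => T i j - A i j), ?_, rfl⟩
    rw [mem_filter, mem_product, mem_HH, mem_HH]
    refine ⟨⟨⟨fun i => congrFun h3 i, fun j => congrFun h4 j⟩, ⟨fun i => ?_, fun j => ?_⟩⟩, ?_⟩
    · have e1 : ∑ j, (A i j + (T i j - A i j)) = ∑ j, T i j := sum_congr rfl (fun j _ => hsum i j)
      have e2 : ∑ j, A i j = a := congrFun h3 i
      rw [sum_add_distrib, hT.1 i, e2] at e1
      show ∑ j, (T i j - A i j) = b
      omega
    · have e1 : ∑ i, (A i j + (T i j - A i j)) = ∑ i, T i j := sum_congr rfl (fun i _ => hsum i j)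
      have e2 : ∑ i, A i j = a := congrFun h4 j
      rw [sum_add_distrib, hT.2 j, e2] at e1
      show ∑ i, (T i j - A i j) = b
      omega
    · funext i j
      exact hsum i j

theorem NN_le (n k a : ℕ) (T : Fin n → Fin n → ℕ) (hT : T ∈ TT2 n k) :
    NN 0 T (kk _ a) (kk _ a) ≤ NN 0 T (kk _ k) (kk _ k) := by
  rw [TT2, mem_HH] at hT
  refine mid_max (kk _ k) (kk _ k) (kk _ a) (kk _ a) _ 0 T (fun i j => Nat.zero_le _) rfl ?_ ?_
  · funext i
    have := hT.1 i
    simp only [Pi.add_apply, row, kk, Pi.zero_apply, sum_const_zero]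
    omega
  · funext j
    have := hT.2 j
    simp only [Pi.add_apply, col, kk, Pi.zero_apply, sum_const_zero]
    omega

/-- the matrix used for strictness -/
def TS (n k : ℕ) : Fin (n + 2) → Fin (n + 2) → ℕ := fun i j =>
  if i = 0 ∨ i = 1 then (if j = 0 ∨ j = 1 then k else 0) else (if i = j then 2 * k else 0)

theorem sum01 (n : ℕ) (x : ℕ) : (∑ j : Fin (n + 2), if j = 0 ∨ j = 1 then x else 0) = 2 * x := by
  rw [Fin.sum_univ_succ, Fin.sum_univ_succ]
  have : ∀ i : Fin n, ¬ ((i.succ.succ : Fin (n + 2)) = 0 ∨ (i.succ.succ : Fin (n + 2)) = 1) := by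
    intro i h
    rcases h with h | h
    · exact absurd h (Fin.succ_ne_zero _)
    · have := congrArg Fin.val h
      simp at this
  rw [sum_eq_zero (fun i _ => if_neg (this i))]
  simp
  omega

theorem TS_mem (n k : ℕ) : TS n k ∈ TT2 (n + 2) k := by
  rw [TT2, mem_HH]
  refine ⟨fun i => ?_, fun j => ?_⟩
  · by_cases hi : i = 0 ∨ i = 1
    · simp only [TS, if_pos hi]
      exact sum01 n k
    · simp only [TS, if_neg hi]
      simp
  · by_cases hj : j = 0 ∨ j = 1
    · have : ∀ i : Fin (n + 2), TS n k i j = if i = 0 ∨ i = 1 then k else 0 := by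
        intro i
        by_cases hi : i = 0 ∨ i = 1
        · simp only [TS, if_pos hi, if_pos hj]
        · have : i ≠ j := by rintro rfl; exact hi hj
          simp only [TS, if_neg hi, if_neg this]
      rw [sum_congr rfl (fun i _ => this i)]
      exact sum01 n k
    · have : ∀ i : Fin (n + 2), TS n k i j = if i = j then 2 * k else 0 := by
        intro i
        by_cases hi : i = 0 ∨ i = 1
        · have : i ≠ j := by rintro rfl; exact hj hi
          simp only [TS, if_pos hi, if_neg hj, if_neg this]
        · simp only [TS, if_neg hi]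
      rw [sum_congr rfl (fun i _ => this i)]
      simp

/-- identity matrix -/
def Id' (n : ℕ) : Fin n → Fin n → ℕ := fun i j => if i = j then 1 else 0

theorem NN_lt (n k : ℕ) :
    NN 0 (TS n (k + 1)) (kk _ k) (kk _ k) < NN 0 (TS n (k + 1)) (kk _ (k + 1)) (kk _ (k + 1)) := by
  classical
  have hrI : row (Id' (n + 2)) = kk _ 1 := by
    funext i; simp [row, Id', kk]
  have hcI : col (Id' (n + 2)) = kk _ 1 := by
    funext i; simp [col, Id', kk]
  rw [NN, NN]
  have hinj : Function.Injective (fun A : Fin (n + 2) → Fin (n + 2) → ℕ => A + Id' (n + 2)) := by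
    intro A B h
    exact add_right_cancel h
  rw [← card_image_of_injective _ hinj]
  apply card_lt_card
  rw [ssubset_iff_of_subset]
  · -- the missing matrix
    let B : Fin (n + 2) → Fin (n + 2) → ℕ := fun i j =>
      if i = 0 then (if j = 1 then k + 1 else 0) else if i = 1 then (if j = 0 then k + 1 else 0) else
        (if i = j then k + 1 else 0)
    refine ⟨B, ?_, ?_⟩
    · rw [mem_SS]
      refine ⟨⟨fun i j => Nat.zero_le _, fun i j => ?_⟩, ?_, ?_⟩
      · show B i j ≤ TS n (k + 1) i j
        by_cases h0 : i = 0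
        · simp only [B, TS, h0, if_true, true_or]
          split_ifs <;> simp_all
        · by_cases h1 : i = 1
          · simp only [B, TS, h1]
            split_ifs <;> simp_all
          · simp only [B, TS, if_neg h0, if_neg h1, h0, h1, or_self, if_false]
            split_ifs <;> omega
      · funext i
        show ∑ j, B i j = k + 1
        by_cases h0 : i = 0
        · simp [B, h0]
        · by_cases h1 : i = 1
          · simp [B, h1]
          · simp [B, h0, h1]
      · funext j
        show ∑ i, B i j = k + 1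
        have hB : ∀ i, B i j = if i = Equiv.swap (0 : Fin (n + 2)) 1 j then k + 1 else 0 := by
          intro i
          by_cases h0 : i = 0
          · subst h0
            by_cases hj : j = 1
            · simp [B, hj]
            · have : (0 : Fin (n + 2)) ≠ Equiv.swap 0 1 j := by
                intro h
                have h2 := congrArg (Equiv.swap (0 : Fin (n + 2)) 1) h
                rw [Equiv.swap_apply_self, Equiv.swap_apply_left] at h2
                exact hj h2.symm
              simp [B, hj, this]
          · by_cases h1 : i = 1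
            · subst h1
              by_cases hj : j = 0
              · simp [B, hj]
              · have : (1 : Fin (n + 2)) ≠ Equiv.swap 0 1 j := by
                  intro h
                  have h2 := congrArg (Equiv.swap (0 : Fin (n + 2)) 1) h
                  rw [Equiv.swap_apply_self, Equiv.swap_apply_right] at h2
                  exact hj h2.symm
                simp [B, hj, this]
            · have : (i = Equiv.swap 0 1 j) ↔ i = j := by
                constructor
                · intro h
                  have h2 : j = Equiv.swap 0 1 i := by rw [h, Equiv.swap_apply_self]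
                  rw [Equiv.swap_apply_of_ne_of_ne h0 h1] at h2
                  exact h2.symm
                · intro h
                  rw [← h, Equiv.swap_apply_of_ne_of_ne h0 h1]
              simp [B, h0, h1, this]
        rw [sum_congr rfl (fun i _ => hB i)]
        simp
    · intro hB
      rw [mem_image] at hB
      obtain ⟨A, _, hA⟩ := hB
      have := congrFun (congrFun hA 0) 0
      simp [B, Id'] at this
  · intro X hX
    rw [mem_image] at hX
    obtain ⟨A, hA, rfl⟩ := hX
    rw [mem_SS] at hA ⊢
    obtain ⟨⟨_, h2⟩, h3, h4⟩ := hA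
    refine ⟨⟨fun i j => Nat.zero_le _, fun i j => ?_⟩, ?_, ?_⟩
    · show A i j + Id' (n + 2) i j ≤ TS n (k + 1) i j
      have a1 := lea h2 i j
      have a2 := row_kk h3 i j
      by_cases hij : i = j
      · subst hij
        by_cases hi : i = 0 ∨ i = 1
        · simp only [TS, Id', if_pos hi, if_true]; omega
        · simp only [TS, Id', if_neg hi, if_true]; omega
      · simp only [Id', if_neg hij]; omega
    · rw [row_add, h3, hrI]; rfl
    · rw [col_add, h4, hcI]; rfl

theorem HH_logconcave (n k : ℕ) : HH (n + 2) k * HH (n + 2) (k + 2) < HH (n + 2) (k + 1) * HH (n + 2) (k + 1) := by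
  rw [HH_mul (n + 2) k (k + 2) (k + 1) (by ring), HH_mul (n + 2) (k + 1) (k + 1) (k + 1) (by ring)]
  exact sum_lt_sum (fun T hT => NN_le _ _ _ T hT) ⟨TS n (k + 1), TS_mem n (k + 1), NN_lt n k⟩

theorem HH_pos (n k : ℕ) : 0 < HH n k := by
  rw [HH, NN]
  apply Finset.card_pos.2
  refine ⟨fun i j => if i = j then k else 0, ?_⟩
  rw [mem_HH]
  refine ⟨fun i => by simp, fun j => by simp⟩

theorem HH_shift (n a d : ℕ) : HH (n + 2) a * HH (n + 2) (a + d + 2) < HH (n + 2) (a + 1) * HH (n + 2) (a + d + 1) := by
  induction d with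
  | zero => exact HH_logconcave n a
  | succ d ih =>
    have h1 := HH_logconcave n (a + d + 1)
    have p := HH_pos (n + 2) (a + d + 2)
    have p0 := HH_pos (n + 2) a
    have p1 := HH_pos (n + 2) (a + d + 1)
    have p3 := HH_pos (n + 2) (a + d + 3)
    rw [show a + (d + 1) + 2 = a + d + 3 by ring, show a + (d + 1) + 1 = a + d + 2 by ring]
    rw [show a + d + 1 + 2 = a + d + 3 by ring, show a + d + 1 + 1 = a + d + 2 by ring] at h1
    set x := HH (n + 2) a
    set x1 := HH (n + 2) (a + 1)
    set y1 := HH (n + 2) (a + d + 1)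
    set y2 := HH (n + 2) (a + d + 2)
    set y3 := HH (n + 2) (a + d + 3)
    -- x y2 < x1 y1 ; y1 y3 < y2 y2 ; want x y3 < x1 y2
    have h2 : (x * y3) * y1 < (x1 * y2) * y1 := by
      calc (x * y3) * y1 = x * (y1 * y3) := by ring
        _ < x * (y2 * y2) := Nat.mul_lt_mul_of_pos_left h1 p0
        _ = (x * y2) * y2 := by ring
        _ ≤ (x1 * y1) * y2 := Nat.mul_le_mul_right _ ih.le
        _ = (x1 * y2) * y1 := by ring
    exact Nat.lt_of_mul_lt_mul_right h2

end R442.MS
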